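import Pool.Agent.Y709.Ten.Stm
import Mathlib.FieldTheory.Finite.Extension
import Mathlib.RingTheory.Norm.Transitivity

/-!
Closed points of the affine space over a finite field, and the logarithmic derivative of an Euler
product over them.
-/

set_option autoImplicit false

open Module

namespace Pool.Agent.Y858.Ten

open Pool.Agent.W343.BSD Pool.Agent.Y709 Pool.Agent.Y709.Ten

section points

variable {F : Type} [Field F] {n : ℕ}

theorem finite_res (z : MaximalSpectrum (MvPolynomial (Fin n) F)) :
    Module.Finite F (MvPolynomial (Fin n) F ⧸ z.asIdeal) := by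
  have := z.isMaximal
  let := Ideal.Quotient.field z.asIdeal
  have h1 : Algebra.FiniteType F (MvPolynomial (Fin n) F ⧸ z.asIdeal) := inferInstance
  exact finite_of_finite_type_of_isJacobsonRing F _

theorem dV_pos (z : MaximalSpectrum (MvPolynomial (Fin n) F)) : 0 < dV z := by
  have := z.isMaximal
  let := Ideal.Quotient.field z.asIdeal
  have := finite_res z
  exact Module.finrank_pos

variable {E : Type} [Field E] [Algebra F E]

theorem ker_max [Finite E] (x : Fin n → E) :
    (RingHom.ker (MvPolynomial.aeval x : MvPolynomial (Fin n) F →ₐ[F] E)).IsMaximal := by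
  have hfin : Finite (MvPolynomial (Fin n) F ⧸
      RingHom.ker (MvPolynomial.aeval x : MvPolynomial (Fin n) F →ₐ[F] E)) :=
    Finite.of_injective _ (RingHom.kerLift_injective
      (MvPolynomial.aeval x : MvPolynomial (Fin n) F →ₐ[F] E).toRingHom)
  have hp : (RingHom.ker (MvPolynomial.aeval x : MvPolynomial (Fin n) F →ₐ[F] E)).IsPrime :=
    RingHom.ker_isPrime _
  exact Ideal.Quotient.maximal_of_isField _ (Finite.isField_of_domain _)

/-- the closed point below a point -/
noncomputable def pt (F : Type) [Field F] {n : ℕ} {E : Type} [Field E] [Finite E] [Algebra F E]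
    (x : Fin n → E) : MaximalSpectrum (MvPolynomial (Fin n) F) :=
  ⟨RingHom.ker (MvPolynomial.aeval x : MvPolynomial (Fin n) F →ₐ[F] E), ker_max x⟩

/-- the point attached to an embedding of the residue field -/
noncomputable def ofHom (z : MaximalSpectrum (MvPolynomial (Fin n) F))
    (φ : (MvPolynomial (Fin n) F ⧸ z.asIdeal) →ₐ[F] E) : Fin n → E :=
  fun i => φ (Ideal.Quotient.mk z.asIdeal (MvPolynomial.X i))

theorem aeval_ofHom (z : MaximalSpectrum (MvPolynomial (Fin n) F))
    (φ : (MvPolynomial (Fin n) F ⧸ z.asIdeal) →ₐ[F] E) (g : MvPolynomial (Fin n) F) :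
    MvPolynomial.aeval (ofHom z φ) g = φ (Ideal.Quotient.mk z.asIdeal g) := by
  have h : (MvPolynomial.aeval (ofHom z φ) : MvPolynomial (Fin n) F →ₐ[F] E) =
      φ.comp (Ideal.Quotient.mkₐ F z.asIdeal) := by
    apply MvPolynomial.algHom_ext
    intro i
    rw [MvPolynomial.aeval_X]
    rfl
  rw [h]
  rfl

theorem hom_inj (z : MaximalSpectrum (MvPolynomial (Fin n) F))
    (φ : (MvPolynomial (Fin n) F ⧸ z.asIdeal) →ₐ[F] E) : Function.Injective φ := by
  have := z.isMaximal
  let := Ideal.Quotient.field z.asIdeal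
  exact φ.toRingHom.injective

theorem pt_ofHom [Finite E] (z : MaximalSpectrum (MvPolynomial (Fin n) F))
    (φ : (MvPolynomial (Fin n) F ⧸ z.asIdeal) →ₐ[F] E) : pt F (ofHom z φ) = z := by
  apply MaximalSpectrum.ext
  ext g
  show g ∈ RingHom.ker _ ↔ _
  rw [RingHom.mem_ker, aeval_ofHom, map_eq_zero_iff φ (hom_inj z φ), Ideal.Quotient.eq_zero_iff_mem]

/-- the fibre over a closed point -/
noncomputable def fibEquiv [Finite E] (z : MaximalSpectrum (MvPolynomial (Fin n) F)) :
    ((MvPolynomial (Fin n) F ⧸ z.asIdeal) →ₐ[F] E) ≃ {x : Fin n → E // pt F x = z} where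
  toFun φ := ⟨ofHom z φ, pt_ofHom z φ⟩
  invFun x := Ideal.Quotient.liftₐ z.asIdeal (MvPolynomial.aeval x.1) (fun a ha => by
    have h : z.asIdeal = (pt F x.1).asIdeal := by rw [x.2]
    rw [h] at ha
    exact RingHom.mem_ker.1 ha)
  left_inv φ := by
    apply Ideal.Quotient.algHom_ext
    apply MvPolynomial.algHom_ext
    intro i
    show MvPolynomial.aeval (ofHom z φ) (MvPolynomial.X i) = _
    rw [MvPolynomial.aeval_X]
    rfl
  right_inv x := by
    apply Subtype.ext
    funext i
    show MvPolynomial.aeval x.1 (MvPolynomial.X i) = _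
    rw [MvPolynomial.aeval_X]

theorem card_fib [Finite E] (z : MaximalSpectrum (MvPolynomial (Fin n) F)) (h : dV z ∣ finrank F E) :
    Nat.card {x : Fin n → E // pt F x = z} = dV z := by
  have := z.isMaximal
  let := Ideal.Quotient.field z.asIdeal
  rw [← Nat.card_congr (fibEquiv z)]
  exact FiniteField.natCard_algHom_of_finrank_dvd h

theorem dvd_of_pt [Finite E] (x : Fin n → E) : dV (pt F x) ∣ finrank F E := by
  have := (pt F x).isMaximal
  let := Ideal.Quotient.field (pt F x).asIdeal
  exact FiniteField.nonempty_algHom_iff_finrank_dvd.1 ⟨(fibEquiv (pt F x)).symm ⟨x, rfl⟩⟩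

theorem pointsAff : PointsAff := by
  intro F _ _ n
  refine ⟨dV_pos, fun m => ?_⟩
  obtain ⟨p, hp⟩ := CharP.exists F
  have hpf : Fact (Nat.Prime p) := ⟨CharP.char_is_prime F p⟩
  have h : {z : MaximalSpectrum (MvPolynomial (Fin n) F) | dV z ≤ m} ⊆
      ⋃ d ∈ Finset.range m, Set.range (fun x : Fin n → FiniteField.Extension F p (d + 1) =>
        pt F x) := by
    intro z hz
    have hz' : dV z ≤ m := hz
    have h0 := dV_pos z
    obtain ⟨d, hd⟩ : ∃ d, dV z = d + 1 := ⟨dV z - 1, by omega⟩
    simp only [Set.mem_iUnion, Finset.mem_range, exists_prop]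
    refine ⟨d, by omega, ?_⟩
    have h1 : dV z ∣ finrank F (FiniteField.Extension F p (d + 1)) := by
      rw [FiniteField.finrank_extension, hd]
    have h2 := card_fib (E := FiniteField.Extension F p (d + 1)) z h1
    have h3 : Nonempty {x : Fin n → FiniteField.Extension F p (d + 1) // pt F x = z} := by
      rw [← not_isEmpty_iff]
      intro h4
      rw [Nat.card_of_isEmpty] at h2
      omega
    obtain ⟨x⟩ := h3
    exact ⟨x.1, x.2⟩
  refine Set.Finite.subset ?_ h
  exact Set.Finite.biUnion (Finset.finite_toSet _) fun d _ => Set.finite_range _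

end points

section norm

variable {k F : Type} [Field k] [Field F] [Algebra k F] {n : ℕ} {E : Type} [Field E]
  [Finite E] [Algebra F E] [Algebra k E] [IsScalarTower k F E]

theorem norm_ofHom [Finite k] [Finite F] (z : MaximalSpectrum (MvPolynomial (Fin n) F))
    (φ : (MvPolynomial (Fin n) F ⧸ z.asIdeal) →ₐ[F] E) (g : MvPolynomial (Fin n) F) :
    Algebra.norm k (MvPolynomial.aeval (ofHom z φ) g : E) =
      Algebra.norm k (Ideal.Quotient.mk z.asIdeal g) ^ (finrank F E / dV z) := by
  have := z.isMaximal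
  let := Ideal.Quotient.field z.asIdeal
  let : Algebra (MvPolynomial (Fin n) F ⧸ z.asIdeal) E := φ.toRingHom.toAlgebra
  have hF : IsScalarTower F (MvPolynomial (Fin n) F ⧸ z.asIdeal) E :=
    IsScalarTower.of_algebraMap_eq fun c => (φ.commutes c).symm
  have hk : IsScalarTower k (MvPolynomial (Fin n) F ⧸ z.asIdeal) E := by
    apply IsScalarTower.of_algebraMap_eq
    intro c
    rw [IsScalarTower.algebraMap_apply k F E, IsScalarTower.algebraMap_apply k F
      (MvPolynomial (Fin n) F ⧸ z.asIdeal), ← IsScalarTower.algebraMap_apply F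
      (MvPolynomial (Fin n) F ⧸ z.asIdeal) E]
  have hfin := finite_res z
  have hfE : Module.Finite F E := Module.finite_of_finrank_pos finrank_pos
  have hfin3 : Finite (MvPolynomial (Fin n) F ⧸ z.asIdeal) := Module.finite_of_finite F
  have hd : finrank F E / dV z = finrank (MvPolynomial (Fin n) F ⧸ z.asIdeal) E := by
    rw [← Module.finrank_mul_finrank F (MvPolynomial (Fin n) F ⧸ z.asIdeal) E]
    exact Nat.mul_div_cancel_left _ (dV_pos z)
  rw [aeval_ofHom, hd, ← map_pow, ← Algebra.norm_algebraMap, Algebra.norm_norm]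
  rfl

end norm

section local_factor

open PowerSeries

variable {R : Type} [CommRing R]

/-- the logarithmic derivative of a local factor -/
noncomputable def loc (c : R) (d : ℕ) : PowerSeries R :=
  PowerSeries.mk fun a => if a ≠ 0 ∧ d ∣ a then (d : R) * c ^ (a / d) else 0

theorem Lg_loc (c : R) {d : ℕ} (hd : 0 < d) :
    Lg (1 - PowerSeries.C c * PowerSeries.X ^ d) (loc c d) := by
  apply PowerSeries.ext
  intro m
  rw [coeff_X_derivative, map_neg, sub_mul, one_mul, mul_assoc, map_sub, map_sub,
    PowerSeries.coeff_C_mul, PowerSeries.coeff_C_mul, PowerSeries.coeff_X_pow_mul',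
    PowerSeries.coeff_X_pow, PowerSeries.coeff_one]
  unfold loc
  rw [PowerSeries.coeff_mk]
  rcases Nat.eq_zero_or_pos m with hm | hm
  · subst hm
    have h1 : ¬ d ≤ 0 := by omega
    simp [h1]
  · have hm0 : m ≠ 0 := hm.ne'
    rw [if_neg hm0]
    by_cases hdv : d ∣ m
    · obtain ⟨j, rfl⟩ := hdv
      have hj : 0 < j := Nat.pos_of_mul_pos_left hm
      have h1 : d ≤ d * j := Nat.le_mul_of_pos_right d hj
      have h5 : d * j ≠ 0 ∧ d ∣ d * j := ⟨hm0, Dvd.intro j rfl⟩
      rw [if_pos h1, PowerSeries.coeff_mk, if_pos h5, Nat.mul_div_cancel_left j hd]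
      rcases Nat.lt_or_ge j 2 with h2 | h2
      · have h3 : j = 1 := by omega
        subst h3
        have h6 : ¬ (d * 1 - d ≠ 0 ∧ d ∣ d * 1 - d) := by
          rintro ⟨h7, _⟩
          apply h7
          rw [mul_one, Nat.sub_self]
        rw [if_neg h6, if_pos (mul_one d)]
        push_cast
        ring
      · have h3 : d * j ≠ d := by
          intro h
          have : j = 1 := Nat.eq_of_mul_eq_mul_left hd (by rw [h, mul_one])
          omega
        have h4 : d * j - d = d * (j - 1) := by rw [Nat.mul_sub, mul_one]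
        have h6 : d * (j - 1) ≠ 0 ∧ d ∣ d * (j - 1) :=
          ⟨(Nat.mul_pos hd (by omega)).ne', Dvd.intro _ rfl⟩
        rw [if_neg h3, h4, if_pos h6, Nat.mul_div_cancel_left _ hd]
        obtain ⟨i, rfl⟩ : ∃ i, j = i + 1 := ⟨j - 1, by omega⟩
        rw [Nat.add_sub_cancel, pow_succ]
        ring
    · have h1 : m ≠ d := by
        rintro rfl
        exact hdv dvd_rfl
      rw [if_neg h1, if_neg (fun h => hdv h.2)]
      by_cases h2 : d ≤ m
      · rw [if_pos h2, PowerSeries.coeff_mk, if_neg]
        · ring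
        · rintro ⟨_, h3⟩
          apply hdv
          have : m = (m - d) + d := by omega
          rw [this]
          exact dvd_add h3 dvd_rfl
      · rw [if_neg h2]
        ring

end local_factor

theorem sum_fib {k F : Type} [Field k] [Finite k] [Field F] [Finite F] [Algebra k F] {n : ℕ}
    {E : Type} [Field E] [Fintype E] [Algebra F E] [Algebra k E] [IsScalarTower k F E]
    {R : Type} [CommRing R] (χ : MulChar k R) (g : MvPolynomial (Fin n) F)
    (z : MaximalSpectrum (MvPolynomial (Fin n) F)) (s : Finset (Fin n → E))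
    (hs : ∀ x, x ∈ s ↔ pt F x = z) :
    ∑ x ∈ s, χ (Algebra.norm k (MvPolynomial.aeval x g)) =
      if dV z ∣ finrank F E then
        (dV z : R) * χ (Algebra.norm k (Ideal.Quotient.mk z.asIdeal g)) ^ (finrank F E / dV z)
      else 0 := by
  classical
  have h1 : ∀ x ∈ s, χ (Algebra.norm k (MvPolynomial.aeval x g : E)) =
      χ (Algebra.norm k (Ideal.Quotient.mk z.asIdeal g)) ^ (finrank F E / dV z) := by
    intro x hx
    have hx' := (hs x).1 hx
    have h2 := norm_ofHom (k := k) z ((fibEquiv z).symm ⟨x, hx'⟩) g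
    have h3 : ofHom z ((fibEquiv z).symm ⟨x, hx'⟩) = x :=
      congrArg Subtype.val ((fibEquiv z).apply_symm_apply ⟨x, hx'⟩)
    rw [h3] at h2
    rw [h2, map_pow]
  rw [Finset.sum_congr rfl h1, Finset.sum_const, nsmul_eq_mul]
  have h2 : s.card = Nat.card {x : Fin n → E // pt F x = z} := by
    rw [Nat.card_eq_fintype_card, Fintype.card_subtype]
    congr 1
    ext x
    rw [hs x, Finset.mem_filter]
    simp
  split_ifs with hd
  · rw [h2, card_fib z hd]
  · have h3 : s = ∅ := by
      rw [Finset.eq_empty_iff_forall_notMem]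
      intro x hx
      apply hd
      rw [← (hs x).1 hx]
      exact dvd_of_pt x
    rw [h3, Finset.card_empty, Nat.cast_zero, zero_mul]

theorem sumsAff : SumsAff := by
  classical
  intro R _ k F _ _ _ _ _ χ n g
  have hfin := (pointsAff F n).2
  refine ⟨_, Lg.euler (d := fun z : MaximalSpectrum (MvPolynomial (Fin n) F) => dV z) hfin
    (f := fun z => 1 - PowerSeries.C (χ (Algebra.norm k (Ideal.Quotient.mk z.asIdeal g))) *
      PowerSeries.X ^ dV z)
    (S := fun z => loc (χ (Algebra.norm k (Ideal.Quotient.mk z.asIdeal g))) (dV z))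
    (fun z => ?_) (fun z => Lg_loc _ (dV_pos z)), ?_, ?_⟩
  · refine ⟨-PowerSeries.C (χ (Algebra.norm k (Ideal.Quotient.mk z.asIdeal g))), ?_⟩
    ring
  · rw [PowerSeries.coeff_mk]
    refine Finset.sum_eq_zero fun z _ => ?_
    unfold loc
    rw [PowerSeries.coeff_mk, if_neg (fun h => h.1 rfl)]
  · intro a ha E _ _ _ _ _ hE
    have hmem : ∀ z, z ∈ (hfin a).toFinset ↔ dV z ≤ a := by
      intro z
      rw [Set.Finite.mem_toFinset]
      exact Iff.rfl
    rw [PowerSeries.coeff_mk, ← Finset.sum_fiberwise_of_maps_to (t := (hfin a).toFinset)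
      (g := fun x : Fin n → E => pt F x) (fun x _ => by
        rw [hmem]
        refine Nat.le_of_dvd (Nat.pos_of_ne_zero ha) ?_
        rw [← hE]
        exact dvd_of_pt x)]
    refine Finset.sum_congr rfl fun z _ => ?_
    rw [sum_fib χ g z _ (fun x => by simp), hE]
    unfold loc
    rw [PowerSeries.coeff_mk]
    by_cases hd : dV z ∣ a
    · rw [if_pos hd, if_pos ⟨ha, hd⟩]
    · rw [if_neg hd, if_neg (fun h => hd h.2)]

end Pool.Agent.Y858.Ten
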